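import Pool.Agent.MP_cfa423_co.Mg.Final

open Pool.Agent.MP_cfa423_co

/-- The periodic points of `s_{231,213}` in `S_n` are the identity and its reverse. -/
theorem Pool.Agent.Results.MP_cfa423_co.Per231_213.result :
    ∀ (n : ℕ) (p : List ℕ), p.Perm (List.range' 1 n) →
      ((∃ m, 1 ≤ m ∧ (sortMap {[2, 3, 1], [2, 1, 3]})^[m] p = p) ↔
        (p = List.range' 1 n ∨ p = (List.range' 1 n).reverse)) :=
  periodic_T2
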